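import Mathlib
import Pool.Agent.Q52.Nil.Defs

set_option autoImplicit false

/-!
# Geometrically nilpotent, non-nilpotent subvarieties for two-variable polynomial maps

For every finite field `F` the polynomial map `T (x, y) = (y, y (x + 1))` of the affine plane and the
line `Y : x = 0` give an example. `T` contracts the line `y = 0` to the fixed point `(0, 0)` and maps
the complement of this line bijectively onto the complement of the line `Y`. All geometric points are
defined over finite fields, so that the orbit of a geometric point of `Y`, which has no preimage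
outside `y = 0`, has to meet the line `y = 0`.
-/

namespace Pool.Agent.Results.MP_12bcff_ag.TwoVariableMaps

open MvPolynomial Q52.Nil

variable {F : Type*} [Field F]

/-- The map `T (x, y) = (y, y (x + 1))`. -/
noncomputable def T (F : Type*) [Field F] : Fin 2 → MvPolynomial (Fin 2) F :=
  ![X 1, X 1 * (X 0 + 1)]

theorem act_T (Q : Pt F 2) : act (T F) Q = ![Q 1, Q 1 * (Q 0 + 1)] := by
  funext i
  fin_cases i <;> simp [act, T]

theorem act_T_zero : act (T F) (0 : Pt F 2) = 0 := by
  rw [act_T]
  funext i
  fin_cases i <;> simp

/-- The coordinates of the `n`-th iterate of `(0, t)`, as polynomials in `t`. -/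
noncomputable def pq (K : Type*) [Field K] : ℕ → Polynomial K × Polynomial K
  | 0 => (0, Polynomial.X)
  | (n + 1) => ((pq K n).2, (pq K n).2 * ((pq K n).1 + 1))

theorem pq_eval_zero (K : Type*) [Field K] (n : ℕ) :
    (pq K n).1.eval 0 = 0 ∧ (pq K n).2.eval 0 = 0 := by
  induction n with
  | zero => simp [pq]
  | succ n ih => simp [pq, ih.1, ih.2]

theorem pq_ne_zero (K : Type*) [Field K] (n : ℕ) : (pq K n).2 ≠ 0 := by
  induction n with
  | zero => simp [pq]
  | succ n ih =>
    simp only [pq]
    refine mul_ne_zero ih fun h => ?_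
    have := congrArg (Polynomial.eval 0) h
    rw [Polynomial.eval_add, (pq_eval_zero K n).1] at this
    simp at this

theorem iterate_T (t : AlgebraicClosure F) (n : ℕ) :
    (act (T F))^[n] ![0, t] = ![(pq _ n).1.eval t, (pq _ n).2.eval t] := by
  induction n with
  | zero => simp [pq]
  | succ n ih =>
    rw [Function.iterate_succ_apply', ih, act_T]
    simp [pq]

theorem infinite_image (k : ℕ) : ((act (T F))^[k] '' {Q : Pt F 2 | Q 0 = 0}).Infinite := by
  intro hfin
  have h1 : (Set.range fun t : AlgebraicClosure F => (pq _ k).2.eval t).Finite := by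
    refine (hfin.image fun Q => Q 1).subset ?_
    rintro _ ⟨t, rfl⟩
    exact ⟨_, ⟨![0, t], by simp, rfl⟩, by simp [iterate_T]⟩
  have h2 : ((fun t : AlgebraicClosure F => (pq _ k).2.eval t) ⁻¹'
      (Set.range fun t : AlgebraicClosure F => (pq _ k).2.eval t)).Finite := by
    refine h1.preimage' fun c _ => ?_
    have hne : (pq (AlgebraicClosure F) k).2 - Polynomial.C c ≠ 0 := by
      intro h
      have h0 := congrArg (Polynomial.eval 0) h
      rw [Polynomial.eval_sub, (pq_eval_zero _ k).2] at h0
      simp only [Polynomial.eval_C, zero_sub, Polynomial.eval_zero, neg_eq_zero] at h0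
      rw [h0, Polynomial.C_0, sub_zero] at h
      exact pq_ne_zero _ k h
    refine (Polynomial.finite_setOfPred_isRoot hne).subset ?_
    intro t ht
    simpa [Polynomial.IsRoot, sub_eq_zero] using ht
  rw [Set.preimage_range] at h2
  exact Set.infinite_univ h2

/-- **Geometrically nilpotent subvarieties of two-variable polynomial maps need not be nilpotent.**
For every finite field `F` the line `Y : x = 0` in the affine plane is geometrically nilpotent for
the polynomial map `T (x, y) = (y, y (x + 1))`, but it is not nilpotent for `T`; no iterate of `T`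
maps the geometric points of `Y` to a finite set. -/
theorem result (F : Type*) [Field F] [Finite F] :
    ∃ (T : Fin 2 → MvPolynomial (Fin 2) F) (Y : Set (Pt F 2)),
      T = ![X 1, X 1 * (X 0 + 1)] ∧ Y = {Q | Q 0 = 0} ∧
      IsSubvariety Y ∧ Y.Nonempty ∧ IsGeomNilpotentFor T Y ∧ ¬ IsNilpotentFor T Y ∧
      ∀ k, ((act T)^[k] '' Y).Infinite := by
  refine ⟨T F, {Q | Q 0 = 0}, rfl, rfl, ⟨{X 0}, by simp⟩, ⟨0, by simp⟩, ⟨0, act_T_zero, ?_⟩, ?_,
    infinite_image⟩
  · intro Q hQ
    obtain ⟨S, hS, hQS, hT⟩ := exists_finite_invariant Q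
    obtain ⟨k, hk⟩ := exists_iterate_mem (act (T F)) S {R | R 1 = 0} hS (hT _) (by
      intro x hx y hy h
      rw [act_T, act_T] at h
      have h0 : x 1 = y 1 := by simpa using congrFun h 0
      have h1 : x 1 * (x 0 + 1) = y 1 * (y 0 + 1) := by simpa using congrFun h 1
      have hx1 : x 1 ≠ 0 := hx.2
      rw [← h0] at h1
      have h2 : x 0 = y 0 := by
        have := mul_left_cancel₀ hx1 h1
        simpa using this
      funext i
      fin_cases i
      · exact h2
      · exact h0) Q hQS (by
      intro x hx h
      rw [act_T] at h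
      have h0 : x 1 = Q 0 := by simpa using congrFun h 0
      exact hx.2 (h0.trans hQ))
    refine ⟨k + 1, by omega, ?_⟩
    rw [Function.iterate_succ_apply', act_T]
    have hk' : ((act (T F))^[k] Q) 1 = 0 := hk
    rw [hk']
    funext i
    fin_cases i <;> simp
  · rintro ⟨P, -, k, -, hk⟩
    exact infinite_image k (by rw [hk]; exact Set.finite_singleton P)

end Pool.Agent.Results.MP_12bcff_ag.TwoVariableMaps
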